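import Mathlib
import Pool.Agent.H4.Rec3

set_option autoImplicit false

namespace Pool.Agent.Results.MP_94b3e1_an.Separable

open Topology

open Pool.Agent.H4.Rec in
theorem result :
    ∀ (𝕂 : Type) [RCLike 𝕂] (X : Type) [NormedAddCommGroup X] [NormedSpace 𝕂 X]
      [CompleteSpace X] [TopologicalSpace.SeparableSpace X] (T : X →L[𝕂] X),
      Dense {x : X | ∀ U ∈ 𝓝 x, ∃ δ : ℝ, 0 < δ ∧ ∀ N : ℕ, 1 ≤ N → ∃ m : ℕ,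
          δ * (N : ℝ) ≤ (({n : ℕ | m ≤ n ∧ n < m + N ∧ (T ^ n) x ∈ U}).ncard : ℝ)} →
      ∃ M : Submodule 𝕂 X, Dense (M : Set X) ∧
        ∀ x ∈ M, ∀ U ∈ 𝓝 x, ∃ δ : ℝ, 0 < δ ∧ ∀ N : ℕ, 1 ≤ N → ∃ m : ℕ,
          δ * (N : ℝ) ≤ (({n : ℕ | m ≤ n ∧ n < m + N ∧ (T ^ n) x ∈ U}).ncard : ℝ) := by
  intro K _ X _ _ _ _ T h
  have e : ∀ x : X, RecF IB T x ↔ ∀ U ∈ 𝓝 x, ∃ δ : ℝ, 0 < δ ∧ ∀ N : ℕ, 1 ≤ N → ∃ m : ℕ,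
      δ * (N : ℝ) ≤ (({n : ℕ | m ≤ n ∧ n < m + N ∧ (T ^ n) x ∈ U}).ncard : ℝ) := fun x => by
    simp only [RecF, IB_iff, c_eq, ContinuousLinearMap.coe_pow', Set.mem_setOf_eq]
  obtain ⟨M, h1, h2⟩ := main_IB.lin K X T (h.mono fun x hx => (e x).2 hx)
  exact ⟨M, h1, fun x hx => (e x).1 (h2 x hx)⟩

end Pool.Agent.Results.MP_94b3e1_an.Separable
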